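import Pool.Agent.H705.GB.Stm

/-! LAW: the limit law of the loss for Goldbach pairs, from the parts. -/

set_option autoImplicit false

namespace Pool.Agent.H167.GB

open MeasureTheory ProbabilityTheory Finset Filter Topology
open Pool.Agent.H705.TR (PrimeIn Model un P_GEN P_CRT P_UN P_MOD)
open Pool.Agent.H705.GB

/-- the number of levels -/
noncomputable def KK (N : ℕ) : ℕ := ⌈Real.log N ^ 4⌉₊

/-- the roughness -/
noncomputable def zz (s : ℝ) (N : ℕ) : ℕ := ⌊(N : ℝ) ^ (s / 2)⌋₊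

/-- the bound for the jumps -/
noncomputable def BJ (s η : ℝ) (N : ℕ) : ℕ := ⌊(N : ℝ) ^ (s / 2 + η)⌋₊

/-- the bound for the time -/
noncomputable def TT (s : ℝ) (N : ℕ) : ℕ := 3 + KK N * (2 * zz s N + 1)

/-- the bound for the loss -/
noncomputable def HH (s η : ℝ) (N : ℕ) : ℕ := 1 + KK N * BJ s η N + TT s N

theorem tend_pow {a b : ℝ} (hab : a < b) (C : ℝ) :
    ∀ᶠ N : ℕ in atTop, C * (N : ℝ) ^ a ≤ (N : ℝ) ^ b := by
  have h1 : Tendsto (fun N : ℕ => (N : ℝ) ^ (b - a)) atTop atTop :=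
    (tendsto_rpow_atTop (by linarith)).comp tendsto_natCast_atTop_atTop
  filter_upwards [h1.eventually_ge_atTop C, eventually_gt_atTop 0] with N hN hN0
  have hN0' : (0 : ℝ) < N := by exact_mod_cast hN0
  calc C * (N : ℝ) ^ a ≤ (N : ℝ) ^ (b - a) * (N : ℝ) ^ a :=
        mul_le_mul_of_nonneg_right hN (Real.rpow_nonneg hN0'.le _)
    _ = (N : ℝ) ^ b := by rw [← Real.rpow_add hN0', sub_add_cancel]

theorem KK_le {η : ℝ} (hη : 0 < η) : ∀ᶠ N : ℕ in atTop, (KK N : ℝ) ≤ (N : ℝ) ^ η := by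
  have h1 : (fun x : ℝ => Real.log x ^ 4) =o[atTop] fun x => x ^ η := by
    have := isLittleO_log_rpow_rpow_atTop (4 : ℝ) hη
    refine this.congr_left fun x => ?_
    rw [← Real.rpow_natCast]
    norm_num
  have h2 : ∀ᶠ x : ℝ in atTop, ‖Real.log x ^ 4‖ ≤ (1 / 2) * ‖x ^ η‖ := h1.bound (by norm_num)
  have h3 := tendsto_natCast_atTop_atTop (R := ℝ) |>.eventually h2
  have h4 := tend_pow hη 2
  filter_upwards [h3, h4, eventually_ge_atTop 3] with N h5 h6 h7
  have hN : (3 : ℝ) ≤ N := by exact_mod_cast h7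
  have hlog : 0 ≤ Real.log N := Real.log_nonneg (by linarith)
  rw [Real.norm_of_nonneg (pow_nonneg hlog 4), Real.norm_of_nonneg (Real.rpow_nonneg (by linarith) _)]
    at h5
  rw [Real.rpow_zero, mul_one] at h6
  have h8 : (KK N : ℝ) < Real.log N ^ 4 + 1 := Nat.ceil_lt_add_one (pow_nonneg hlog 4)
  linarith

/-- the parameters for one large `N` -/
structure Par (s η : ℝ) (N : ℕ) : Prop where
  z1 : 1 ≤ zz s N
  zle : (zz s N : ℝ) ≤ (N : ℝ) ^ (s / 2)
  zlt : (N : ℝ) ^ (s / 2) < zz s N + 1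
  TB : TT s N ≤ BJ s η N
  room : N / 2 + 3 * HH s η N + 2 * TT s N + 20 ≤ N
  loss : (HH s η N : ℝ) + 3 ≤ (N : ℝ) ^ (s / 2 + 2 * η)
  sq : zz s N ^ 2 ≤ N / 2
  rt : TT s N + 2 * Nat.sqrt (2 * N) + zz s N + 2 ≤ N / 2

theorem par_ev {s η : ℝ} (hs : 0 < s) (hs1 : s < 1) (hη : 0 < η) (hη1 : η ≤ 1 / 8) :
    ∀ᶠ N : ℕ in atTop, Par s η N := by
  filter_upwards [KK_le (η := η / 4) (by linarith),
    tend_pow (a := s / 2 + η / 4) (b := s / 2 + η) (by linarith) 6,
    tend_pow (a := s / 2 + 5 * η / 4) (b := s / 2 + 2 * η) (by linarith) 11,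
    tend_pow (a := 3 / 4) (b := 1) (by norm_num) 14,
    tend_pow (a := s) (b := 1) hs1 2, eventually_ge_atTop 1] with N h1 h2 h3 h4 h5 h6
  have hN : (1 : ℝ) ≤ N := by exact_mod_cast h6
  have hN0 : (0 : ℝ) < N := by linarith
  rw [Real.rpow_one] at h4 h5
  -- powers
  set u : ℝ := (N : ℝ) ^ (s / 2) with hu
  set k : ℝ := (N : ℝ) ^ (η / 4) with hk
  have hu1 : 1 ≤ u := Real.one_le_rpow hN (by linarith)
  have hk1 : 1 ≤ k := Real.one_le_rpow hN (by linarith)
  have e1 : (N : ℝ) ^ (s / 2 + η / 4) = u * k := by rw [hu, hk, ← Real.rpow_add hN0]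
  have e2 : (N : ℝ) ^ (s / 2 + η) = u * k * k * k * k := by
    rw [hu, hk, ← Real.rpow_add hN0, ← Real.rpow_add hN0, ← Real.rpow_add hN0,
      ← Real.rpow_add hN0]
    congr 1
    ring
  have e3 : (N : ℝ) ^ (s / 2 + 5 * η / 4) = u * k * k * k * k * k := by
    rw [hu, hk, ← Real.rpow_add hN0, ← Real.rpow_add hN0, ← Real.rpow_add hN0,
      ← Real.rpow_add hN0, ← Real.rpow_add hN0]
    congr 1
    ring
  have e4 : (N : ℝ) ^ s = u * u := by
    rw [hu, ← Real.rpow_add hN0]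
    congr 1
    ring
  have hz1 : (zz s N : ℝ) ≤ u := Nat.floor_le (by linarith)
  have hz2 : u < zz s N + 1 := Nat.lt_floor_add_one _
  have hz0 : (0 : ℝ) ≤ zz s N := Nat.cast_nonneg _
  have hK0 : (0 : ℝ) ≤ KK N := Nat.cast_nonneg _
  have hT : (TT s N : ℝ) ≤ 6 * (u * k) := by
    have a1 : (KK N : ℝ) * (2 * zz s N + 1) ≤ k * (3 * u) :=
      mul_le_mul h1 (by linarith) (by positivity) (by linarith)
    have a2 : 1 ≤ u * k := by nlinarith
    have : (TT s N : ℝ) = 3 + (KK N : ℝ) * (2 * zz s N + 1) := by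
      unfold TT
      push_cast
      ring
    rw [this]
    nlinarith
  have hB1 : (BJ s η N : ℝ) ≤ (N : ℝ) ^ (s / 2 + η) := Nat.floor_le (Real.rpow_nonneg hN0.le _)
  have hB0 : (0 : ℝ) ≤ BJ s η N := Nat.cast_nonneg _
  have hT0 : (0 : ℝ) ≤ TT s N := Nat.cast_nonneg _
  have hH : (HH s η N : ℝ) + 3 ≤ 11 * (u * k * k * k * k * k) := by
    have a1 : (KK N : ℝ) * BJ s η N ≤ k * (u * k * k * k * k) := by
      rw [e2] at hB1
      exact mul_le_mul h1 hB1 hB0 (by linarith)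
    have a0 : 1 ≤ u * k := by nlinarith
    have a2 : u * k ≤ u * k * k := by nlinarith
    have a3 : u * k * k ≤ u * k * k * k := by nlinarith
    have a4 : u * k * k * k ≤ u * k * k * k * k := by nlinarith
    have a5 : u * k * k * k * k ≤ u * k * k * k * k * k := by nlinarith
    have : (HH s η N : ℝ) = 1 + (KK N : ℝ) * BJ s η N + TT s N := by
      unfold HH
      push_cast
      ring
    rw [this]
    have a6 : k * (u * k * k * k * k) = u * k * k * k * k * k := by ring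
    linarith
  rw [e3] at h3
  have hloss : (HH s η N : ℝ) + 3 ≤ (N : ℝ) ^ (s / 2 + 2 * η) := hH.trans h3
  have h34 : (HH s η N : ℝ) + 3 ≤ (N : ℝ) ^ (3 / 4 : ℝ) :=
    hloss.trans (Real.rpow_le_rpow_of_exponent_le hN (by linarith))
  have hTH : (TT s N : ℝ) ≤ HH s η N := by
    have : TT s N ≤ HH s η N := by
      unfold HH
      omega
    exact_mod_cast this
  refine ⟨?_, hz1, hz2, ?_, ?_, hloss, ?_, ?_⟩
  · have : (0 : ℝ) < zz s N := by linarith
    exact_mod_cast this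
  · unfold BJ
    refine Nat.le_floor ?_
    rw [e1] at h2
    exact hT.trans h2
  · have a1 : ((2 * (3 * HH s η N + 2 * TT s N + 20) : ℕ) : ℝ) ≤ N := by
      push_cast
      linarith
    have a2 : 2 * (3 * HH s η N + 2 * TT s N + 20) ≤ N := by exact_mod_cast a1
    omega
  · have a1 : (zz s N : ℝ) * zz s N ≤ u * u := mul_le_mul hz1 hz1 hz0 (by linarith)
    rw [e4] at h5
    have a2 : ((2 * zz s N ^ 2 : ℕ) : ℝ) ≤ N := by
      push_cast
      nlinarith
    have a3 : 2 * zz s N ^ 2 ≤ N := by exact_mod_cast a2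
    omega
  · have a1 : (Nat.sqrt (2 * N) : ℝ) ≤ 2 * (N : ℝ) ^ (3 / 4 : ℝ) := by
      have b1 : (Nat.sqrt (2 * N) : ℝ) * Nat.sqrt (2 * N) ≤ 2 * N := by
        exact_mod_cast Nat.sqrt_le (2 * N)
      have b2 : (N : ℝ) ≤ (N : ℝ) ^ (3 / 4 : ℝ) * (N : ℝ) ^ (3 / 4 : ℝ) := by
        rw [← Real.rpow_add hN0]
        nth_rewrite 1 [← Real.rpow_one (N : ℝ)]
        exact Real.rpow_le_rpow_of_exponent_le hN (by norm_num)
      have b3 : 0 ≤ (N : ℝ) ^ (3 / 4 : ℝ) := Real.rpow_nonneg hN0.le _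
      by_contra hcon
      push Not at hcon
      nlinarith
    have a2 : u ≤ (N : ℝ) ^ (3 / 4 : ℝ) := Real.rpow_le_rpow_of_exponent_le hN (by linarith)
    have a3 : ((2 * (TT s N + 2 * Nat.sqrt (2 * N) + zz s N + 2) : ℕ) : ℝ) ≤ N := by
      push_cast
      linarith
    have a4 : 2 * (TT s N + 2 * Nat.sqrt (2 * N) + zz s N + 2) ≤ N := by exact_mod_cast a3
    omega

/-- `K β` tends to zero -/
theorem beta_ev {s η : ℝ} (hs : 0 < s) (hη : 0 < η) {C θ : ℝ} (hC : 0 < C) (hθ : 0 < θ) :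
    ∀ᶠ N : ℕ in atTop, (KK N : ℝ) * (C * zz s N * (N : ℝ) ^ (η / 2) / BJ s η N) ≤ θ := by
  filter_upwards [KK_le (η := η / 4) (by linarith),
    tend_pow (a := s / 2 + 3 * η / 4) (b := s / 2 + η) (by linarith) (2 * C / θ),
    tend_pow (a := 0) (b := s / 2 + η) (by linarith) 2, eventually_ge_atTop 1] with N h1 h2 h3 h4
  have hN : (1 : ℝ) ≤ N := by exact_mod_cast h4
  have hN0 : (0 : ℝ) < N := by linarith
  rw [Real.rpow_zero, mul_one] at h3
  have hB2 : (N : ℝ) ^ (s / 2 + η) < BJ s η N + 1 := Nat.lt_floor_add_one _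
  have hB3 : (N : ℝ) ^ (s / 2 + η) / 2 ≤ BJ s η N := by linarith
  have hB0 : (0 : ℝ) < BJ s η N := by linarith
  have hz1 : (zz s N : ℝ) ≤ (N : ℝ) ^ (s / 2) := Nat.floor_le (Real.rpow_nonneg hN0.le _)
  have hz0 : (0 : ℝ) ≤ zz s N := Nat.cast_nonneg _
  rw [← mul_div_assoc, div_le_iff₀ hB0]
  have h5 : (KK N : ℝ) * (C * zz s N * (N : ℝ) ^ (η / 2)) ≤
      (N : ℝ) ^ (η / 4) * (C * (N : ℝ) ^ (s / 2) * (N : ℝ) ^ (η / 2)) := by
    refine mul_le_mul h1 ?_ (by positivity) (by positivity)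
    refine mul_le_mul_of_nonneg_right ?_ (by positivity)
    exact mul_le_mul_of_nonneg_left hz1 hC.le
  have h6 : (N : ℝ) ^ (η / 4) * (C * (N : ℝ) ^ (s / 2) * (N : ℝ) ^ (η / 2)) =
      C * (N : ℝ) ^ (s / 2 + 3 * η / 4) := by
    have : (N : ℝ) ^ (s / 2 + 3 * η / 4) =
        (N : ℝ) ^ (η / 4) * (N : ℝ) ^ (s / 2) * (N : ℝ) ^ (η / 2) := by
      rw [← Real.rpow_add hN0, ← Real.rpow_add hN0]
      congr 1
      ring
    rw [this]
    ring
  have h7 : C * (N : ℝ) ^ (s / 2 + 3 * η / 4) =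
      θ * ((2 * C / θ * (N : ℝ) ^ (s / 2 + 3 * η / 4)) / 2) := by
    field_simp
  have h8 : θ * ((2 * C / θ * (N : ℝ) ^ (s / 2 + 3 * η / 4)) / 2) ≤
      θ * ((N : ℝ) ^ (s / 2 + η) / 2) :=
    mul_le_mul_of_nonneg_left (by linarith) hθ.le
  have h9 : θ * ((N : ℝ) ^ (s / 2 + η) / 2) ≤ θ * BJ s η N :=
    mul_le_mul_of_nonneg_left hB3 hθ.le
  linarith

/-- the failure probability -/
theorem err_ev {c₀ : ℝ} (hc : 0 < c₀) {θ : ℝ} (hθ : 0 < θ) :
    ∀ᶠ N : ℕ in atTop, c₀ ≤ Real.log (2 * N) ∧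
      (1 - (c₀ / Real.log (2 * N)) ^ 2) ^ KK N ≤ θ := by
  have h1 : Tendsto (fun N : ℕ => Real.log (N : ℝ)) atTop atTop :=
    Real.tendsto_log_atTop.comp tendsto_natCast_atTop_atTop
  have h2 : Tendsto (fun N : ℕ => c₀ ^ 2 / 4 * Real.log (N : ℝ) ^ 2) atTop atTop :=
    ((tendsto_pow_atTop two_ne_zero).comp h1).const_mul_atTop (by positivity)
  have h3 : Tendsto (fun N : ℕ => Real.exp (-(c₀ ^ 2 / 4 * Real.log (N : ℝ) ^ 2))) atTop (𝓝 0) :=
    Real.tendsto_exp_neg_atTop_nhds_zero.comp h2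
  filter_upwards [h3.eventually_le_const hθ, h1.eventually_ge_atTop 1, h1.eventually_ge_atTop c₀,
    eventually_ge_atTop 2] with N h4 h5 h5' h6
  have hN : (2 : ℝ) ≤ N := by exact_mod_cast h6
  have hlog : Real.log (2 * N) = Real.log 2 + Real.log N := Real.log_mul (by norm_num) (by linarith)
  have hl2 : 0 ≤ Real.log 2 := Real.log_nonneg (by norm_num)
  have hl2' : Real.log 2 ≤ Real.log N := Real.log_le_log (by norm_num) hN
  have hcl : c₀ ≤ Real.log (2 * N) := by linarith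
  refine ⟨hcl, le_trans ?_ h4⟩
  have hl : 0 < Real.log (2 * N) := by linarith
  set δ : ℝ := (c₀ / Real.log (2 * N)) ^ 2 with hδ
  have hδ1 : δ ≤ 1 := by
    rw [hδ]
    refine pow_le_one₀ (by positivity) ?_
    rw [div_le_one hl]
    exact hcl
  have h7 : 1 - δ ≤ Real.exp (-δ) := by
    have := Real.add_one_le_exp (-δ)
    linarith
  have h8 : (1 - δ) ^ KK N ≤ Real.exp (-δ) ^ KK N := pow_le_pow_left₀ (by linarith) h7 _
  refine h8.trans ?_
  rw [← Real.exp_nat_mul]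
  refine Real.exp_le_exp.2 ?_
  have h9 : Real.log (N : ℝ) ^ 4 ≤ KK N := Nat.le_ceil _
  have hδ0 : 0 ≤ δ := by positivity
  have h10 : c₀ ^ 2 / 4 * Real.log (N : ℝ) ^ 2 ≤ Real.log (N : ℝ) ^ 4 * δ := by
    rw [hδ, div_pow, ← mul_div_assoc, le_div_iff₀ (by positivity)]
    have h11 : Real.log (2 * N) ^ 2 ≤ 4 * Real.log N ^ 2 := by
      have : Real.log (2 * N) ≤ 2 * Real.log N := by linarith
      calc Real.log (2 * N) ^ 2 ≤ (2 * Real.log N) ^ 2 := pow_le_pow_left₀ hl.le this 2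
        _ = 4 * Real.log N ^ 2 := by ring
    calc c₀ ^ 2 / 4 * Real.log (N : ℝ) ^ 2 * Real.log (2 * N) ^ 2
        ≤ c₀ ^ 2 / 4 * Real.log (N : ℝ) ^ 2 * (4 * Real.log N ^ 2) :=
          mul_le_mul_of_nonneg_left h11 (by positivity)
      _ = Real.log (N : ℝ) ^ 4 * c₀ ^ 2 := by ring
  have h11 : Real.log (N : ℝ) ^ 4 * δ ≤ KK N * δ := mul_le_mul_of_nonneg_right h9 hδ0
  linarith

/-- `C / log z` tends to zero -/
theorem zlog_ev {s : ℝ} (hs : 0 < s) (C : ℝ) {θ : ℝ} (hθ : 0 < θ) :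
    ∀ᶠ N : ℕ in atTop, C / Real.log (zz s N) ≤ θ ∧ 2 ≤ zz s N := by
  have h1 : Tendsto (fun N : ℕ => zz s N) atTop atTop :=
    tendsto_nat_floor_atTop.comp
      ((tendsto_rpow_atTop (by linarith)).comp tendsto_natCast_atTop_atTop)
  have h2 : Tendsto (fun N : ℕ => Real.log (zz s N : ℝ)) atTop atTop :=
    Real.tendsto_log_atTop.comp (tendsto_natCast_atTop_atTop.comp h1)
  have h3 : Tendsto (fun N : ℕ => C / Real.log (zz s N : ℝ)) atTop (𝓝 0) := h2.const_div_atTop C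
  exact (h3.eventually_le_const hθ).and (h1.eventually_ge_atTop 2)

theorem un_nonneg (k : ℕ) (Q : ℕ → Prop) : 0 ≤ un k Q := by
  unfold un
  positivity

/-- the first odd level -/
def cN (N : ℕ) : ℕ := N - (N + 1) % 2

theorem glob_of {s η : ℝ} {N : ℕ} (h : Par s η N) :
    Glob (zz s N) (BJ s η N) N (TT s N) (HH s η N) (N / 2) := ⟨h.z1, h.TB, h.room⟩

theorem ok_of {s η : ℝ} {N : ℕ} (hN : 4 ≤ N) :
    Ok (zz s N) (BJ s η N) N (TT s N) (HH s η N) (KK N) 0 3 (cN N) := by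
  have h1 : N - cN N ≤ 1 := by
    unfold cN
    omega
  refine ⟨by unfold cN; omega, by norm_num, by unfold cN; omega, ?_, ?_⟩
  · unfold TT
    exact le_rfl
  · unfold HH
    rw [pow_zero, one_mul]
    omega

/-- what the parts give for one large `N` -/
theorem main_ev (hRCH : P_RCH) (hIND : P_IND) (hPR : P_PR) (hNT1 : P_NT1) (hNT2 : P_NT2)
    (hNT3 : P_NT3) (hBAD : P_BAD)
    (Ω : Type) [MeasurableSpace Ω] (M : ℕ → ℕ) (P : Measure Ω) (Y : ℕ → Ω → ℕ)
    (hM : ∀ m, Full m (M m)) (hY : Model M P Y) {s ε η θ : ℝ} (hs : 0 < s) (hs1 : s < 1)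
    (hε : 0 < ε) (hεs : ε ≤ s) (hη : 0 < η) (hη1 : η ≤ 1 / 8) (hθ : 0 < θ) :
    ∀ᶠ N : ℕ in atTop,
      (s - ε) ^ 2 * P.real {ω | Reach (zz s N) (BJ s η N) N (fun _ _ _ => True) (KK N) 0 3 (cN N)
          (par fun i => Y i ω)} - θ ≤
        P.real {ω | Reach (zz s N) (BJ s η N) N (Free N) (KK N) 0 3 (cN N) (par fun i => Y i ω)} ∧
      P.real {ω | Reach (zz s N) (BJ s η N) N (Free N) (KK N) 0 3 (cN N) (par fun i => Y i ω)} ≤
        (s + ε) ^ 2 * P.real {ω | Reach (zz s N) (BJ s η N) N (fun _ _ _ => True) (KK N) 0 3 (cN N)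
          (par fun i => Y i ω)} + θ ∧
      1 - θ ≤ P.real {ω | Reach (zz s N) (BJ s η N) N (fun _ _ _ => True) (KK N) 0 3 (cN N)
          (par fun i => Y i ω)} ∧
      MeasurableSet {ω | Reach (zz s N) (BJ s η N) N (fun _ _ _ => True) (KK N) 0 3 (cN N)
          (par fun i => Y i ω)} := by
  obtain ⟨c₀, hc₀, hc⟩ := hNT1
  obtain ⟨C₃, hC₃, hc₃⟩ := hNT3
  obtain ⟨C, hC, hbad⟩ := hBAD (η / 2) (by linarith)
  have hP := hY.prob
  obtain ⟨hPR1, hPR2⟩ := hPR Ω M P Y hY
  filter_upwards [par_ev hs hs1 hη hη1, beta_ev hs hη hC (half_pos hθ), err_ev hc₀ (half_pos hθ),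
    zlog_ev hs C₃ hθ, hNT2 s hs hs1 ε hε, eventually_ge_atTop 10] with N hpar hbeta herr hzl h2 hN10
  have hG := glob_of hpar
  have hOk := ok_of (s := s) (η := η) (N := N) (by omega)
  have hroom := hpar.room
  set z : ℕ := zz s N with hz
  set B : ℕ := BJ s η N with hB
  set T : ℕ := TT s N with hT
  set H : ℕ := HH s η N with hH
  set δ : ℝ := (c₀ / Real.log (2 * N)) ^ 2 with hδ
  have hN10' : (10 : ℝ) ≤ N := by exact_mod_cast hN10
  have hlN : 0 < Real.log (2 * N) := by linarith [herr.1]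
  have hδ0 : 0 ≤ δ := by positivity
  have hq1 : c₀ / Real.log (2 * N) ≤ 1 := by
    rw [div_le_one hlN]
    exact herr.1
  have hδ1 : δ ≤ 1 := pow_le_one₀ (by positivity) hq1
  -- lower bounds of the probabilities
  have hlow : ∀ m, 3 ≤ m → m ≤ 2 * N →
      c₀ / Real.log (2 * N) ≤ un (M m) (fun y => r z m (2 * y + 1)) := by
    intro m hm hm2
    refine le_trans ?_ (hc z m (M m) hm (hM m))
    have h5 : (3 : ℝ) ≤ m := by exact_mod_cast hm
    have h6 : 0 < Real.log (m : ℝ) := Real.log_pos (by linarith)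
    have h7 : Real.log (m : ℝ) ≤ Real.log (2 * N) :=
      Real.log_le_log (by linarith) (by exact_mod_cast hm2)
    exact div_le_div_of_nonneg_left hc₀.le h6 h7
  -- the error at the level `N`
  set e₀ : ℝ := un (M N) (fun y => r z N (2 * y + 1)) with he₀
  have he0 : 0 ≤ e₀ := un_nonneg _ _
  have heθ : e₀ ≤ θ := by
    refine (hc₃ z N (M N) hzl.2 ?_ (hM N)).trans hzl.1
    exact hpar.sq.trans (Nat.div_le_self N 2)
  -- the values of the probabilities
  have hcase1 : ∀ c, c % 2 = 1 → c < N →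
      P.real {ω | R z N c (par (fun i => Y i ω) c) (par (fun i => Y i ω) (2 * N - c))} =
        un (M c) (fun y => r z c (2 * y + 1)) *
          un (M (2 * N - c)) (fun y => r z (2 * N - c) (2 * y + 1)) := by
    intro c hc1 hc2
    exact hPR2 c (2 * N - c) (r z c) (r z (2 * N - c)) hc1 (by omega) (by omega)
  have hfree : ∀ c, P.real {ω | R z N c (par (fun i => Y i ω) c) (par (fun i => Y i ω) (2 * N - c)) ∧
      Free N c (par (fun i => Y i ω) c) (par (fun i => Y i ω) (2 * N - c))} =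
      P.real {ω | Free N c (par (fun i => Y i ω) c) (par (fun i => Y i ω) (2 * N - c))} := by
    intro c
    congr 1
    ext ω
    exact ⟨fun h => h.2, fun h => ⟨(hRCH.2.2.2 z N c _ _).1 h, h⟩⟩
  have hcase2 : ∀ c, c % 2 = 1 → c < N →
      P.real {ω | Free N c (par (fun i => Y i ω) c) (par (fun i => Y i ω) (2 * N - c))} =
        un (M c) (fun y => PrimeIn c (2 * y + 1)) *
          un (M (2 * N - c)) (fun y => PrimeIn (2 * N - c) (2 * y + 1)) := by
    intro c hc1 hc2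
    exact hPR2 c (2 * N - c) (PrimeIn c) (PrimeIn (2 * N - c)) hc1 (by omega) (by omega)
  have hcaseN : N % 2 = 1 →
      P.real {ω | R z N N (par (fun i => Y i ω) N) (par (fun i => Y i ω) (2 * N - N))} = e₀ := by
    intro hN1
    rw [he₀, ← hPR1 N (r z N) hN1]
    have h5 : 2 * N - N = N := by omega
    congr 1
    ext ω
    unfold R
    simp only [h5, Set.mem_ofPred_eq, and_self]
  have hδR : ∀ c, c % 2 = 1 → c ≤ N → N ≤ c + H →
      δ ≤ P.real {ω | R z N c (par (fun i => Y i ω) c) (par (fun i => Y i ω) (2 * N - c))} := by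
    intro c hc1 hc2 hc3
    rcases lt_or_eq_of_le hc2 with hc4 | hc4
    · rw [hcase1 c hc1 hc4, hδ, sq]
      exact mul_le_mul (hlow c (by omega) (by omega)) (hlow (2 * N - c) (by omega) (by omega))
        (by positivity) (un_nonneg _ _)
    · subst hc4
      rw [hcaseN hc1, hδ, he₀]
      refine le_trans ?_ (hlow c (by omega) (by omega))
      have h6 : 0 ≤ c₀ / Real.log (2 * (c : ℝ)) := by positivity
      rw [sq]
      nlinarith
  have hsε : 0 ≤ s - ε := by linarith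
  have hβ0 : 0 ≤ C * z * (N : ℝ) ^ (η / 2) / B := by positivity
  have hbad' : ∀ n c, c % 2 = 1 → c ≤ N → N ≤ c + H → 1 ≤ n → n + (2 * z + 1) ≤ T →
      P.real {ω | ¬ R z N c (par (fun i => Y i ω) c) (par (fun i => Y i ω) (2 * N - c)) ∧
        B < jp N n c (par (fun i => Y i ω) c) (par (fun i => Y i ω) (2 * N - c))} ≤
        C * z * (N : ℝ) ^ (η / 2) / B :=
    fun n c a1 a2 a3 a4 a5 => hbad Ω M P Y hM hY z B N T H (N / 2) hG n c a1 a2 a3 a4 a5
  have hA := hIND Ω M P Y hY z B N T H (N / 2) (Free N) ((s - ε) ^ 2) ((s + ε) ^ 2) δ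
    (C * z * (N : ℝ) ^ (η / 2) / B) e₀ hG hδ0 hδ1 hβ0 he0
    (fun c hc1 hc2 hc3 => by
      refine ⟨?_, ?_, hδR c hc1 hc2 hc3⟩
      · rcases lt_or_eq_of_le hc2 with hc4 | hc4
        · rw [if_neg hc4.ne, hfree, hcase1 c hc1 hc4, hcase2 c hc1 hc4, sub_zero]
          have a1 := (h2 c (M c) (by omega) (by omega) (hM c)).1
          have a2 := (h2 (2 * N - c) (M (2 * N - c)) (by omega) (by omega) (hM _)).1
          have a3 := mul_le_mul a1 a2 (mul_nonneg hsε (un_nonneg _ _)) (un_nonneg _ _)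
          refine le_trans (le_of_eq ?_) a3
          rw [hz]
          unfold zz
          ring
        · subst hc4
          rw [if_pos rfl, hcaseN hc1]
          have a1 : (s - ε) ^ 2 ≤ 1 := pow_le_one₀ hsε (by linarith)
          have a2 : (s - ε) ^ 2 * e₀ ≤ 1 * e₀ := mul_le_mul_of_nonneg_right a1 he0
          have a3 : 0 ≤ P.real {ω | R z c c (par (fun i => Y i ω) c)
              (par (fun i => Y i ω) (2 * c - c)) ∧
              Free c c (par (fun i => Y i ω) c) (par (fun i => Y i ω) (2 * c - c))} :=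
            measureReal_nonneg
          linarith
      · rcases lt_or_eq_of_le hc2 with hc4 | hc4
        · rw [if_neg hc4.ne, hfree, hcase1 c hc1 hc4, hcase2 c hc1 hc4, add_zero]
          have a1 := (h2 c (M c) (by omega) (by omega) (hM c)).2
          have a2 := (h2 (2 * N - c) (M (2 * N - c)) (by omega) (by omega) (hM _)).2
          have a3 := mul_le_mul a1 a2 (un_nonneg _ _)
            (mul_nonneg (by linarith : 0 ≤ s + ε) (un_nonneg _ _))
          refine le_trans a3 (le_of_eq ?_)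
          rw [hz]
          unfold zz
          ring
        · subst hc4
          rw [if_pos rfl, hcaseN hc1]
          have a1 : P.real {ω | R z c c (par (fun i => Y i ω) c)
              (par (fun i => Y i ω) (2 * c - c)) ∧
              Free c c (par (fun i => Y i ω) c) (par (fun i => Y i ω) (2 * c - c))} ≤ e₀ := by
            rw [← hcaseN hc1]
            exact measureReal_mono fun ω hω => hω.1
          have a2 : 0 ≤ (s + ε) ^ 2 * e₀ := by positivity
          linarith)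
    hbad' (KK N) 0 3 (cN N) hOk
  have hD := hIND Ω M P Y hY z B N T H (N / 2) (fun _ _ _ => True) 1 1 δ
    (C * z * (N : ℝ) ^ (η / 2) / B) 0 hG hδ0 hδ1 hβ0 le_rfl
    (fun c hc1 hc2 hc3 => by
      have h5 : {ω | R z N c (par (fun i => Y i ω) c) (par (fun i => Y i ω) (2 * N - c)) ∧ True} =
          {ω | R z N c (par (fun i => Y i ω) c) (par (fun i => Y i ω) (2 * N - c))} := by
        ext ω
        exact iff_of_eq (and_true _)
      rw [h5]
      refine ⟨?_, ?_, hδR c hc1 hc2 hc3⟩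
      · split_ifs <;> linarith
      · split_ifs <;> linarith)
    hbad' (KK N) 0 3 (cN N) hOk
  have hite : (if cN N = N then e₀ else 0) ≤ θ := by
    split_ifs
    · exact heθ
    · exact hθ.le
  refine ⟨by linarith [hA.2.1], by linarith [hA.2.2.1], ?_, hD.1⟩
  have h6 := hA.2.2.2
  rw [zero_add, pow_one] at h6
  have h7 := herr.2
  linarith

theorem T_LAW (hRUN : P_RUN) (hST2 : P_ST2) (hLOW : P_LOW) (hUP : P_UP) (hRCH : P_RCH)
    (hIND : P_IND) (hPR : P_PR) (hNT1 : P_NT1) (hNT2 : P_NT2) (hNT3 : P_NT3) (hBAD : P_BAD) :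
    P_LAW := by
  intro Ω _ M P Y hM hY t ht ht1
  have hP := hY.prob
  have hparity : ∀ (v : ℕ → ℕ) (m : ℕ), par v m % 2 = m % 2 := by
    intro v m
    unfold par
    omega
  have hfl : ∀ (v : ℕ → ℕ) (N : ℕ), 4 ≤ N → F (par v) N + 1 = fl (par v) N 3 (cN N) := by
    intro v N hN
    rw [(hRUN (par v) N (by omega)).2]
    exact (hST2 v N hN).1
  rw [tendsto_order]
  constructor
  · intro a ha
    have hm : max a 0 < t ^ 2 := max_lt ha (by positivity)
    have h1 : ∀ᶠ s in 𝓝[<] t, max a 0 < s ^ 2 :=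
      ((continuous_pow 2).continuousAt.tendsto.eventually (lt_mem_nhds hm)).filter_mono
        nhdsWithin_le_nhds
    have h2 : ∀ᶠ s in 𝓝[<] t, s ∈ Set.Ioo 0 t := Ioo_mem_nhdsLT ht
    obtain ⟨s', hs1, hs2⟩ := (h1.and h2).exists
    obtain ⟨s, hs3, hs4⟩ := exists_between hs2.2
    have hs0 : 0 < s := hs2.1.trans hs3
    have hs5 : s < 1 := lt_of_lt_of_le hs4 ht1
    have hθ : 0 < (s' ^ 2 - max a 0) / 4 := by linarith
    set θ : ℝ := (s' ^ 2 - max a 0) / 4 with hθd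
    filter_upwards [main_ev hRCH hIND hPR hNT1 hNT2 hNT3 hBAD Ω M P Y hM hY hs0 hs5
      (ε := s - s') (by linarith) (by linarith [hs2.1]) (η := (t - s) / 8) (by linarith)
      (by linarith) hθ, par_ev hs0 hs5 (η := (t - s) / 8) (by linarith) (by linarith),
      eventually_ge_atTop 10] with N h3 h4 h6
    have hG := glob_of h4
    have hOk := ok_of (s := s) (η := (t - s) / 8) (N := N) (by omega)
    have hN1 : (1 : ℝ) ≤ N := by
      have : 1 ≤ N := by omega
      exact_mod_cast this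
    have hsub : {ω | Reach (zz s N) (BJ s ((t - s) / 8) N) N (Free N) (KK N) 0 3 (cN N)
          (par fun i => Y i ω)} ⊆
        {ω | (N : ℝ) - F (par fun m => Y m ω) N ≤ (N : ℝ) ^ (t / 2)} := by
      intro ω hω
      have h7 := hLOW (zz s N) (BJ s ((t - s) / 8) N) N (TT s N) (HH s ((t - s) / 8) N) (N / 2)
        (KK N) 0 3 (cN N) (par fun i => Y i ω) hG hOk (hparity _) hω
      have h9 := h7.2.1
      rw [← hfl _ N (by omega)] at h9
      have h11 : (N : ℝ) ≤ F (par fun i => Y i ω) N + 1 + HH s ((t - s) / 8) N := by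
        exact_mod_cast h9
      have h12 := h4.loss
      have h13 : (N : ℝ) ^ (s / 2 + 2 * ((t - s) / 8)) ≤ (N : ℝ) ^ (t / 2) :=
        Real.rpow_le_rpow_of_exponent_le hN1 (by linarith)
      show (N : ℝ) - F (par fun m => Y m ω) N ≤ (N : ℝ) ^ (t / 2)
      linarith
    have h13 := measureReal_mono (μ := P) hsub
    have h14 : s - (s - s') = s' := by ring
    rw [h14] at h3
    have h16 : s' ^ 2 * (1 - θ) ≤ s' ^ 2 * P.real {ω | Reach (zz s N) (BJ s ((t - s) / 8) N) N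
        (fun _ _ _ => True) (KK N) 0 3 (cN N) (par fun i => Y i ω)} :=
      mul_le_mul_of_nonneg_left h3.2.2.1 (by positivity)
    have h17 : s' ^ 2 ≤ 1 := pow_le_one₀ hs2.1.le (by linarith)
    have h18 : s' ^ 2 * θ ≤ 1 * θ := mul_le_mul_of_nonneg_right h17 hθ.le
    have h19 := le_max_left a 0
    linarith [h3.1]
  · intro a ha
    rcases lt_or_eq_of_le ht1 with ht1 | ht1
    swap
    · rw [ht1, one_pow] at ha
      exact Eventually.of_forall fun N => lt_of_le_of_lt measureReal_le_one ha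
    have h1 : ∀ᶠ s in 𝓝[>] t, s ^ 2 < a :=
      ((continuous_pow 2).continuousAt.tendsto.eventually (gt_mem_nhds ha)).filter_mono
        nhdsWithin_le_nhds
    have h2 : ∀ᶠ s in 𝓝[>] t, s ∈ Set.Ioo t 1 := Ioo_mem_nhdsGT ht1
    obtain ⟨s', hs1, hs2⟩ := (h1.and h2).exists
    obtain ⟨s, hs3, hs4⟩ := exists_between hs2.1
    have hs0 : 0 < s := ht.trans hs3
    have hs5 : s < 1 := hs4.trans hs2.2
    have hθ : 0 < (a - s' ^ 2) / 3 := by linarith
    set θ : ℝ := (a - s' ^ 2) / 3 with hθd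
    filter_upwards [main_ev hRCH hIND hPR hNT1 hNT2 hNT3 hBAD Ω M P Y hM hY hs0 hs5
      (ε := min (s' - s) s) (by
        refine lt_min (by linarith) hs0) (min_le_right _ _) (η := 1 / 8) (by norm_num)
      le_rfl hθ, par_ev hs0 hs5 (η := 1 / 8) (by norm_num) le_rfl,
      eventually_ge_atTop 10] with N h3 h4 h6
    have hG := glob_of h4
    have hOk := ok_of (s := s) (η := 1 / 8) (N := N) (by omega)
    have hN1 : (1 : ℝ) ≤ N := by
      have : 1 ≤ N := by omega
      exact_mod_cast this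
    have hts : (N : ℝ) ^ (t / 2) ≤ (N : ℝ) ^ (s / 2) :=
      Real.rpow_le_rpow_of_exponent_le hN1 (by linarith)
    have hz2 := h4.zlt
    have hsub : {ω | (N : ℝ) - F (par fun m => Y m ω) N ≤ (N : ℝ) ^ (t / 2)} ⊆
        {ω | Reach (zz s N) (BJ s (1 / 8) N) N (Free N) (KK N) 0 3 (cN N) (par fun i => Y i ω)} ∪
        {ω | Reach (zz s N) (BJ s (1 / 8) N) N (fun _ _ _ => True) (KK N) 0 3 (cN N)
          (par fun i => Y i ω)}ᶜ := by
      intro ω hω
      by_contra hcon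
      rw [Set.mem_union, not_or, Set.mem_compl_iff, not_not] at hcon
      obtain ⟨hc1, hc2⟩ := hcon
      have h7 : Reach (zz s N) (BJ s (1 / 8) N) N (fun c y y' => ¬ Free N c y y') (KK N) 0 3 (cN N)
          (par fun i => Y i ω) :=
        (hRCH.2.2.1 (zz s N) (BJ s (1 / 8) N) N (Free N) (KK N) 0 3 (cN N) _ hc2).resolve_left hc1
      have h8 := hUP (zz s N) (BJ s (1 / 8) N) N (TT s N) (HH s (1 / 8) N) (N / 2)
        (KK N) 0 3 (cN N) (par fun i => Y i ω) hG hOk (hparity _) h4.sq h4.rt h7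
      rw [← hfl _ N (by omega)] at h8
      have h11 : (F (par fun i => Y i ω) N : ℝ) + 1 + zz s N ≤ N := by exact_mod_cast h8
      have h12 : (N : ℝ) - F (par fun m => Y m ω) N ≤ (N : ℝ) ^ (t / 2) := hω
      linarith
    have h13 := measureReal_mono (μ := P) hsub
    have h14 := measureReal_union_le (μ := P)
      {ω | Reach (zz s N) (BJ s (1 / 8) N) N (Free N) (KK N) 0 3 (cN N) (par fun i => Y i ω)}
      {ω | Reach (zz s N) (BJ s (1 / 8) N) N (fun _ _ _ => True) (KK N) 0 3 (cN N)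
          (par fun i => Y i ω)}ᶜ
    have h15 := probReal_compl_eq_one_sub (μ := P) h3.2.2.2
    have h16 : P.real {ω | Reach (zz s N) (BJ s (1 / 8) N) N (fun _ _ _ => True) (KK N) 0 3 (cN N)
          (par fun i => Y i ω)} ≤ 1 := measureReal_le_one
    have h18 : (s + min (s' - s) s) ^ 2 ≤ s' ^ 2 := by
      refine pow_le_pow_left₀ ?_ ?_ 2
      · have : 0 ≤ min (s' - s) s := le_min (by linarith) hs0.le
        linarith
      · have := min_le_left (s' - s) s
        linarith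
    have h17 : (s + min (s' - s) s) ^ 2 *
        P.real {ω | Reach (zz s N) (BJ s (1 / 8) N) N (fun _ _ _ => True) (KK N) 0 3 (cN N)
          (par fun i => Y i ω)} ≤ s' ^ 2 * 1 :=
      mul_le_mul h18 h16 measureReal_nonneg (by positivity)
    linarith [h3.2.1, h3.2.2.1]

end Pool.Agent.H167.GB
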